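import Pool.Agent.Run7.h810.DF.Union

/-!
MP_b83ca4_nt, Q2: no union of finitely many rotated and translated copies of the triangular
lattice is a uniformly discrete dense forest; in particular three copies never are.
-/

namespace Pool.Agent.Results.MP_b83ca4_nt.NeverUniformlyDiscrete

open Pool.Agent.Run7.h810.DF

/-- `D` is a dense forest: for every `ε > 0` there is `V > 0` such that every line segment
`{p + t u : 0 ≤ t ≤ V}`, `|u| = 1`, has a point at distance less than `ε` from `D`. -/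
def IsDenseForest (D : Set ℂ) : Prop :=
  ∀ ε : ℝ, 0 < ε → ∃ V : ℝ, 0 < V ∧
    ∀ p u : ℂ, ‖u‖ = 1 → ∃ t : ℝ, 0 ≤ t ∧ t ≤ V ∧ ∃ y ∈ D, ‖p + t * u - y‖ < ε

/-- `D` is uniformly discrete. -/
def IsUniformlyDiscrete (D : Set ℂ) : Prop :=
  ∃ r : ℝ, 0 < r ∧ ∀ p ∈ D, ∀ q ∈ D, p ≠ q → r ≤ ‖p - q‖

/-- For every number `k` of copies: if `TBG(k,(x_i),(θ_i))` is uniformly discrete, then it is not
a dense forest. -/
theorem result (k : ℕ) (θ : Fin k → AddCircle (2 * Real.pi)) (x : Fin k → ℂ)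
    (h : IsUniformlyDiscrete (TBG k x θ)) : ¬ IsDenseForest (TBG k x θ) := by
  intro hdf
  rcases Nat.eq_zero_or_pos k with hk | hk
  · subst hk
    obtain ⟨V, _, hV⟩ := hdf 1 one_pos
    obtain ⟨t, _, _, y, hy, _⟩ := hV 0 1 (by simp)
    obtain ⟨i, _⟩ := hy
    exact i.elim0
  · obtain ⟨r, hr, hsep⟩ := h
    let i0 : Fin k := ⟨0, hk⟩
    obtain ⟨p, δ, hδ, hline⟩ := avoid_of_comm k x θ (rot (θ i0)) (norm_rot _) (fun i => by
      obtain ⟨a, ha, b, hb, ha0, hab⟩ := comm_of_separated (rot (θ i0)) (rot (θ i)) (x i0) (x i)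
        (norm_rot _) (norm_rot _) r hr (fun a ha b hb hne =>
          hsep _ ⟨i0, a, ha, rfl⟩ _ ⟨i, b, hb, rfl⟩ hne)
      exact ⟨a, ha, b, hb, ha0, hab⟩)
    obtain ⟨V, _, hV⟩ := hdf δ hδ
    obtain ⟨t, _, _, y, hy, hd⟩ := hV p (rot (θ i0)) (norm_rot _)
    have h2 := hline t y hy
    linarith

end Pool.Agent.Results.MP_b83ca4_nt.NeverUniformlyDiscrete
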