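import Pool.Agent.Run7.h810.DF.Union

/-!
MP_b83ca4_nt, Q1: the smallest number of rotated and translated copies of the triangular lattice
whose union is a dense forest is 2.
-/

namespace Pool.Agent.Results.MP_b83ca4_nt.SmallestNumber

open Pool.Agent.Run7.h810.DF MeasureTheory

/-- `D` is a dense forest: for every `ε > 0` there is `V > 0` such that every line segment
`{p + t u : 0 ≤ t ≤ V}`, `|u| = 1`, has a point at distance less than `ε` from `D`. -/
def IsDenseForest (D : Set ℂ) : Prop :=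
  ∀ ε : ℝ, 0 < ε → ∃ V : ℝ, 0 < V ∧
    ∀ p u : ℂ, ‖u‖ = 1 → ∃ t : ℝ, 0 ≤ t ∧ t ≤ V ∧ ∃ y ∈ D, ‖p + t * u - y‖ < ε

/-- The smallest `k ≥ 1` for which some `TBG(k,(x_i),(θ_i))` is a dense forest is `2`. Moreover
`TBG(2,(x_i),(θ_i))` is a dense forest whenever no vector of the first copy is parallel to a
vector of the second one. -/
theorem result :
    IsLeast {k : ℕ | 1 ≤ k ∧ ∃ (θ : Fin k → AddCircle (2 * Real.pi)) (x : Fin k → ℂ),
      IsDenseForest (TBG k x θ)} 2 ∧
    (∀ θ : Fin 2 → AddCircle (2 * Real.pi), Good (θ 0) (θ 1) →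
      ∀ x : Fin 2 → ℂ, IsDenseForest (TBG 2 x θ)) := by
  have main : ∀ θ : Fin 2 → AddCircle (2 * Real.pi), Good (θ 0) (θ 1) →
      ∀ x : Fin 2 → ℂ, IsDenseForest (TBG 2 x θ) := by
    intro θ hθ x ε hε
    obtain ⟨T, hT, h⟩ := near_TBG θ hθ ε hε
    exact ⟨T, hT, h x⟩
  refine ⟨⟨⟨by norm_num, ?_⟩, ?_⟩, main⟩
  · have h1 := ae_good
    have hne : (volume : Measure (Fin 2 → AddCircle (2 * Real.pi))) ≠ 0 := by
      intro h0
      have h2 : (volume : Measure (Fin 2 → AddCircle (2 * Real.pi))) Set.univ = 0 := by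
        rw [h0]; simp
      rw [volume_pi, Measure.pi_univ] at h2
      simp [AddCircle.measure_univ] at h2
      linarith [Real.pi_pos]
    have : (ae (volume : Measure (Fin 2 → AddCircle (2 * Real.pi)))).NeBot := ae_neBot.mpr hne
    obtain ⟨θ, hθ⟩ := h1.exists
    exact ⟨θ, 0, main θ hθ 0⟩
  · rintro k ⟨hk, θ, x, hdf⟩
    by_contra hlt
    push Not at hlt
    have hk1 : k = 1 := by omega
    subst hk1
    obtain ⟨p, δ, hδ, hline⟩ := avoid_of_comm 1 x θ (rot (θ 0)) (norm_rot _)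
      (fun i => ⟨1, one_mem, 1, one_mem, one_ne_zero, by rw [Subsingleton.elim i 0]⟩)
    obtain ⟨V, _, hV⟩ := hdf δ hδ
    obtain ⟨t, _, _, y, hy, hd⟩ := hV p (rot (θ 0)) (norm_rot _)
    have h2 := hline t y hy
    linarith

end Pool.Agent.Results.MP_b83ca4_nt.SmallestNumber
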